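import Mathlib
import Pool.Agent.MP_2b113a_an.H83.Iface
import Pool.Agent.MP_2b113a_an.H83.Dir

/-!
Positive definite functions: Gaussian averages are integrals of Gaussian symbols against a
nonnegative function, up to a limit.
-/

namespace Pool.Agent.MP_2b113a_an.H36

open MeasureTheory ProbabilityTheory Filter Topology
open scoped ENNReal NNReal Real
open Pool.Agent.MP_2b113a_an.H83

/-- The scalar product of the plane. -/
def dot (θ q : ℝ × ℝ) : ℝ := θ.1 * q.1 + θ.2 * q.2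

/-- An unnormalised Gaussian. -/
noncomputable def g2 (a b : ℝ) (q : ℝ × ℝ) : ℝ :=
  Real.exp (-a * q.1 ^ 2) * Real.exp (-b * q.2 ^ 2)

@[fun_prop] lemma continuous_g2 (a b : ℝ) : Continuous (g2 a b) := by unfold g2; fun_prop

@[fun_prop] lemma measurable_g2 (a b : ℝ) : Measurable (g2 a b) := (continuous_g2 a b).measurable

@[fun_prop] lemma measurable_dot {α : Type*} [MeasurableSpace α] {f g : α → ℝ × ℝ}
    (hf : Measurable f) (hg : Measurable g) : Measurable fun x => dot (f x) (g x) := by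
  unfold dot; fun_prop

lemma g2_pos (a b : ℝ) (q : ℝ × ℝ) : 0 < g2 a b q := by unfold g2; positivity

lemma g2_eq (ε : ℝ) (q : ℝ × ℝ) : g2 ε ε q = Real.exp (-ε * nsq q) := by
  rw [g2, ← Real.exp_add, nsq]; congr 1; ring

lemma g2_le_one {ε : ℝ} (hε : 0 ≤ ε) (q : ℝ × ℝ) : g2 ε ε q ≤ 1 := by
  rw [g2_eq, Real.exp_le_one_iff]
  nlinarith [nsq_nonneg q]

lemma integrable_g2 {a b : ℝ} (ha : 0 < a) (hb : 0 < b) : Integrable (g2 a b) :=
  (integrable_exp_neg_mul_sq ha).mul_prod (integrable_exp_neg_mul_sq hb)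

lemma dot_rot {c s : ℝ} (h : c ^ 2 + s ^ 2 = 1) (θ q : ℝ × ℝ) :
    dot (rot c s θ) (rot c s q) = dot θ q := by
  simp only [dot, rot]
  linear_combination (θ.1 * q.1 + θ.2 * q.2) * h

lemma dot_sub (θ p q : ℝ × ℝ) : dot θ (p - q) = dot θ p - dot θ q := by
  simp only [dot, Prod.fst_sub, Prod.snd_sub]; ring

/-- The damped cosine transform. -/
noncomputable def fh (f : ℝ × ℝ → ℝ) (ε : ℝ) (θ : ℝ × ℝ) : ℝ :=
  ∫ q, f q * g2 ε ε q * Real.cos (dot θ q)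

lemma int_bdd {α : Type*} [MeasurableSpace α] {μ : Measure α} {F G : α → ℝ} {B : ℝ}
    (hF : Integrable F μ) (hG : Measurable G) (hB : ∀ x, |G x| ≤ B) :
    Integrable (fun x => F x * G x) μ :=
  hF.mul_bdd hG.aestronglyMeasurable (ae_of_all _ hB)

lemma fh_nonneg {f : ℝ × ℝ → ℝ} (hf : PD f) {ε : ℝ} (hε : 0 < ε) (θ : ℝ × ℝ) :
    0 ≤ fh f ε θ := by
  obtain ⟨hm, ⟨B, hB⟩, hpd⟩ := hf
  have hg := integrable_g2 (a := 2 * ε) (b := 2 * ε) (by positivity) (by positivity)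
  set g := g2 (2 * ε) (2 * ε) with hgd
  have hgm : Measurable g := measurable_g2 _ _
  have hgc : Integrable fun p => g p * Real.cos (dot θ p) :=
    int_bdd hg (by fun_prop) fun p => Real.abs_cos_le_one _
  have hgs : Integrable fun p => g p * Real.sin (dot θ p) :=
    int_bdd hg (by fun_prop) fun p => Real.abs_sin_le_one _
  have h1 := hpd _ (by fun_prop) hgc
  have h2 := hpd _ (by fun_prop) hgs
  have i1 : Integrable (fun x : (ℝ × ℝ) × (ℝ × ℝ) => g x.1 * Real.cos (dot θ x.1) *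
      (g x.2 * Real.cos (dot θ x.2)) * f (x.1 - x.2)) (volume.prod volume) :=
    int_bdd (hgc.mul_prod hgc) (by fun_prop) fun x => hB _
  have i2 : Integrable (fun x : (ℝ × ℝ) × (ℝ × ℝ) => g x.1 * Real.sin (dot θ x.1) *
      (g x.2 * Real.sin (dot θ x.2)) * f (x.1 - x.2)) (volume.prod volume) :=
    int_bdd (hgs.mul_prod hgs) (by fun_prop) fun x => hB _
  rw [integral_integral i1] at h1
  rw [integral_integral i2] at h2
  have h3 := add_nonneg h1 h2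
  rw [← integral_add i1 i2] at h3
  have i3 := i1.add i2
  have e : ∀ x : (ℝ × ℝ) × (ℝ × ℝ), g x.1 * Real.cos (dot θ x.1) *
      (g x.2 * Real.cos (dot θ x.2)) * f (x.1 - x.2) + g x.1 * Real.sin (dot θ x.1) *
      (g x.2 * Real.sin (dot θ x.2)) * f (x.1 - x.2) =
      g x.1 * g x.2 * (Real.cos (dot θ (x.1 - x.2)) * f (x.1 - x.2)) := fun x => by
    rw [dot_sub, Real.cos_sub]; ring
  simp only [e] at h3
  have i4 : Integrable (fun x : (ℝ × ℝ) × (ℝ × ℝ) =>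
      g x.1 * g x.2 * (Real.cos (dot θ (x.1 - x.2)) * f (x.1 - x.2))) (volume.prod volume) :=
    i3.congr (ae_of_all _ e)
  have mp := measurePreserving_add_prod (G := ℝ × ℝ) volume volume
  have i5 := mp.integrable_comp_of_integrable i4
  rw [← mp.map_eq, integral_map mp.measurable.aemeasurable
    (Measurable.aestronglyMeasurable (by fun_prop))] at h3
  have e2 : ∀ u q : ℝ × ℝ, g (u + q) * g q * (Real.cos (dot θ (u + q - q)) * f (u + q - q)) =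
      f u * g2 ε ε u * Real.cos (dot θ u) * g2 (4 * ε) (4 * ε) (q + (1 / 2 : ℝ) • u) := by
    intro u q
    have : g (u + q) * g q = g2 ε ε u * g2 (4 * ε) (4 * ε) (q + (1 / 2 : ℝ) • u) := by
      simp only [hgd, g2_eq, ← Real.exp_add, nsq, Prod.fst_add, Prod.snd_add, Prod.smul_fst,
        Prod.smul_snd, smul_eq_mul]
      congr 1; ring
    rw [this, add_sub_cancel_right]; ring
  replace h3 := h3.trans_eq (integral_prod _ i5)
  simp only [e2, integral_const_mul, integral_add_right_eq_self,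
    integral_mul_const] at h3
  have hC : 0 < ∫ q, g2 (4 * ε) (4 * ε) q := by
    have := integrable_g2 (a := 4 * ε) (b := 4 * ε) (by positivity) (by positivity)
    simp only [g2_eq]
    exact integral_exp_pos (this.congr (ae_of_all _ fun q => g2_eq _ q))
  exact nonneg_of_mul_nonneg_left h3 hC

lemma inv1 {a : ℝ≥0} (ha : a ≠ 0) (u : ℝ) :
    ∫ t : ℝ, Complex.exp (Complex.I * u * t) * Complex.exp (-((a / 2 : ℝ) : ℂ) * t ^ 2) =
      ((2 * π * gaussianPDFReal 0 a u : ℝ) : ℂ) := by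
  have ha' : (0 : ℝ) < a := by positivity
  rw [fourierIntegral_gaussian (by simp; positivity)]
  have h1 : ((π : ℂ) / ((a / 2 : ℝ) : ℂ)) ^ (1 / 2 : ℂ) = ((√(π / (a / 2)) : ℝ) : ℂ) := by
    rw [Real.sqrt_eq_rpow, Complex.ofReal_cpow (by positivity)]
    push_cast; rfl
  have h2 : √(π / (a / 2)) = 2 * π * (√(2 * π * a))⁻¹ := by
    rw [Real.sqrt_eq_iff_mul_self_eq (by positivity) (by positivity), mul_mul_mul_comm,
      ← mul_inv, Real.mul_self_sqrt (by positivity)]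
    field_simp
  have h3 : -(u : ℂ) ^ 2 / (4 * ((a / 2 : ℝ) : ℂ)) = ((-(u - 0) ^ 2 / (2 * a) : ℝ) : ℂ) := by
    push_cast; ring
  rw [h1, h2, h3, gaussianPDFReal, ← Complex.ofReal_exp, ← Complex.ofReal_mul]
  congr 1; ring

lemma inv2 {a b : ℝ≥0} (ha : a ≠ 0) (hb : b ≠ 0) (q : ℝ × ℝ) :
    ∫ θ, g2 (a / 2) (b / 2) θ * Real.cos (dot θ q) =
      (2 * π) ^ 2 * (gaussianPDFReal 0 a q.1 * gaussianPDFReal 0 b q.2) := by
  have ha' : (0 : ℝ) < a := by positivity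
  have hb' : (0 : ℝ) < b := by positivity
  have h := integral_prod_mul (μ := (volume : Measure ℝ)) (ν := (volume : Measure ℝ))
    (fun t : ℝ => Complex.exp (Complex.I * q.1 * t) * Complex.exp (-((a / 2 : ℝ) : ℂ) * t ^ 2))
    (fun t : ℝ => Complex.exp (Complex.I * q.2 * t) * Complex.exp (-((b / 2 : ℝ) : ℂ) * t ^ 2))
  rw [inv1 ha, inv1 hb, ← Complex.ofReal_mul] at h
  have e : ∀ θ : ℝ × ℝ, Complex.exp (Complex.I * q.1 * θ.1) *
      Complex.exp (-((a / 2 : ℝ) : ℂ) * θ.1 ^ 2) *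
      (Complex.exp (Complex.I * q.2 * θ.2) * Complex.exp (-((b / 2 : ℝ) : ℂ) * θ.2 ^ 2)) =
      (g2 (a / 2) (b / 2) θ : ℂ) * Complex.exp (dot θ q * Complex.I) := fun θ => by
    simp only [g2, dot]
    push_cast
    simp only [← Complex.exp_add]
    congr 1; ring
  simp only [e] at h
  have hi : Integrable (fun θ : ℝ × ℝ =>
      (g2 (a / 2) (b / 2) θ : ℂ) * Complex.exp (dot θ q * Complex.I)) (volume.prod volume) :=
    (integrable_g2 (a := a / 2) (b := b / 2) (by positivity) (by positivity)).ofReal.mul_bdd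
      (c := 1) (Measurable.aestronglyMeasurable (by fun_prop))
      (ae_of_all _ fun θ => (Complex.norm_exp_ofReal_mul_I _).le)
  have h2 := integral_re hi
  rw [h] at h2
  simp only [RCLike.re_to_complex, Complex.re_ofReal_mul, Complex.exp_ofReal_mul_I_re,
    Complex.ofReal_re] at h2
  rw [show (2 * π) ^ 2 * (gaussianPDFReal 0 a q.1 * gaussianPDFReal 0 b q.2) =
    2 * π * gaussianPDFReal 0 a q.1 * (2 * π * gaussianPDFReal 0 b q.2) by ring, ← h2]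
  rfl

lemma integral_N2 {a b : ℝ≥0} (ha : a ≠ 0) (hb : b ≠ 0) (F : ℝ × ℝ → ℝ) :
    ∫ q, F q ∂N2 a b = ∫ q, gaussianPDFReal 0 a q.1 * gaussianPDFReal 0 b q.2 * F q := by
  rw [N2_eq_G2, G2_eq 0 ha hb, integral_withDensity_eq_integral_toReal_smul (by fun_prop)
    (ae_of_all _ fun q => (pdf2_ne_top _ _ _ q).lt_top)]
  refine integral_congr_ae (ae_of_all _ fun q => ?_)
  simp [pdf2]

lemma parseval {a b : ℝ≥0} (ha : a ≠ 0) (hb : b ≠ 0) {F : ℝ × ℝ → ℝ}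
    (hF : Integrable F) :
    ∫ θ, g2 (a / 2) (b / 2) θ * ∫ q, F q * Real.cos (dot θ q) =
      (2 * π) ^ 2 * ∫ q, F q ∂N2 a b := by
  have ha' : (0 : ℝ) < a := by positivity
  have hb' : (0 : ℝ) < b := by positivity
  have hg := integrable_g2 (a := a / 2) (b := b / 2) (by positivity) (by positivity)
  have hi : Integrable (fun x : (ℝ × ℝ) × (ℝ × ℝ) =>
      g2 (a / 2) (b / 2) x.1 * F x.2 * Real.cos (dot x.1 x.2)) (volume.prod volume) :=
    int_bdd (hg.mul_prod hF) (by fun_prop) fun x => Real.abs_cos_le_one _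
  simp only [← integral_const_mul, ← mul_assoc]
  rw [integral_integral_swap hi, integral_N2 ha hb]
  refine integral_congr_ae (ae_of_all _ fun q => ?_)
  have : ∀ θ, g2 (a / 2) (b / 2) θ * F q * Real.cos (dot θ q) =
      F q * (g2 (a / 2) (b / 2) θ * Real.cos (dot θ q)) := fun θ => by ring
  simp only [this, integral_const_mul, inv2 ha hb]
  ring

lemma rot_one (q : ℝ × ℝ) : rot 1 0 q = q := by simp [rot]

lemma g2_rot {c s : ℝ} (h : c ^ 2 + s ^ 2 = 1) (ε : ℝ) (q : ℝ × ℝ) :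
    g2 ε ε (rot c s q) = g2 ε ε q := by rw [g2_eq, g2_eq, nsq_rot h]

lemma integral_rot {c s : ℝ} (h : c ^ 2 + s ^ 2 = 1) {F : ℝ × ℝ → ℝ} (hF : Measurable F) :
    ∫ q, F (rot c s q) = ∫ q, F q := by
  have mp := mp_rot h
  conv_rhs => rw [← mp.map_eq]
  rw [integral_map mp.measurable.aemeasurable hF.aestronglyMeasurable]

@[fun_prop] lemma measurable_fh {f : ℝ × ℝ → ℝ} (hf : Measurable f) (ε : ℝ) :
    Measurable (fh f ε) := by
  have : Measurable fun x : (ℝ × ℝ) × (ℝ × ℝ) => f x.2 * g2 ε ε x.2 * Real.cos (dot x.1 x.2) := by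
    fun_prop
  exact (this.stronglyMeasurable.integral_prod_right' (ν := volume)).measurable

lemma integrable_damp {f : ℝ × ℝ → ℝ} (hm : Measurable f) {B : ℝ} (hB : ∀ q, |f q| ≤ B) {ε : ℝ}
    (hε : 0 < ε) : Integrable fun q => f q * g2 ε ε q :=
  (int_bdd (integrable_g2 hε hε) hm hB).congr (ae_of_all _ fun _ => mul_comm _ _)

lemma fh_bdd {f : ℝ × ℝ → ℝ} (hm : Measurable f) {B : ℝ} (hB : ∀ q, |f q| ≤ B) {ε : ℝ}
    (hε : 0 < ε) (θ : ℝ × ℝ) : |fh f ε θ| ≤ ∫ q, |f q * g2 ε ε q| := by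
  refine abs_integral_le_integral_abs.trans (integral_mono_of_nonneg
    (ae_of_all _ fun _ => abs_nonneg _) (integrable_damp hm hB hε).abs (ae_of_all _ fun q => ?_))
  simp only [abs_mul (f q * g2 ε ε q)]
  exact mul_le_of_le_one_right (abs_nonneg _) (Real.abs_cos_le_one _)

/-- The number `L` is the pairing of the symbol `σ` with the spectral measure of `f`. -/
def Rep (f : ℝ × ℝ → ℝ) (L : ℝ) (σ : ℝ × ℝ → ℝ) : Prop :=
  (∀ n : ℕ, Integrable fun θ => σ θ * fh f (1 / ((n : ℝ) + 1)) θ) ∧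
    Tendsto (fun n : ℕ => ∫ θ, σ θ * fh f (1 / ((n : ℝ) + 1)) θ) atTop (𝓝 ((2 * π) ^ 2 * L))

lemma Rep.congr {f σ σ' : ℝ × ℝ → ℝ} {L : ℝ} (h : Rep f L σ) (e : ∀ θ, σ θ = σ' θ) :
    Rep f L σ' := by
  rwa [← funext e]

lemma Rep.add {f σ σ' : ℝ × ℝ → ℝ} {L L' : ℝ} (h : Rep f L σ) (h' : Rep f L' σ') :
    Rep f (L + L') fun θ => σ θ + σ' θ := by
  refine ⟨fun n => ?_, ?_⟩
  · simp only [add_mul]; exact (h.1 n).add (h'.1 n)
  · simp only [add_mul, mul_add, integral_add (h.1 _) (h'.1 _)]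
    exact h.2.add h'.2

lemma Rep.smul {f σ : ℝ × ℝ → ℝ} {L : ℝ} (h : Rep f L σ) (w : ℝ) :
    Rep f (w * L) fun θ => w * σ θ := by
  refine ⟨fun n => ?_, ?_⟩
  · simp only [mul_assoc]; exact (h.1 n).const_mul w
  · simp only [mul_assoc w, integral_const_mul, mul_left_comm _ w]
    exact h.2.const_mul w

lemma Rep.sub {f σ σ' : ℝ × ℝ → ℝ} {L L' : ℝ} (h : Rep f L σ) (h' : Rep f L' σ') :
    Rep f (L - L') fun θ => σ θ - σ' θ := by
  have := h.add (h'.smul (-1))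
  simpa only [neg_one_mul, ← sub_eq_add_neg] using this

lemma Rep.sum {ι : Type*} {f : ℝ × ℝ → ℝ} {σ : ι → ℝ × ℝ → ℝ} {L : ι → ℝ} (J : Finset ι)
    (h : ∀ i, Rep f (L i) (σ i)) : Rep f (∑ i ∈ J, L i) fun θ => ∑ i ∈ J, σ i θ := by
  classical
  induction J using Finset.induction_on with
  | empty => simp [Rep]
  | insert i J hi ih => simp only [Finset.sum_insert hi]; exact (h i).add ih

lemma Rep.le {f σ σ' : ℝ × ℝ → ℝ} {L L' : ℝ} (hf : PD f) (h : Rep f L σ) (h' : Rep f L' σ')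
    (hσ : ∀ θ, σ θ ≤ σ' θ) : L ≤ L' := by
  have h1 := le_of_tendsto_of_tendsto' h.2 h'.2 fun n => integral_mono (h.1 n) (h'.1 n)
    fun θ => mul_le_mul_of_nonneg_right (hσ θ) (fh_nonneg hf (by positivity) θ)
  exact le_of_mul_le_mul_left h1 (by positivity)

lemma rep_base {f : ℝ × ℝ → ℝ} (hf : PD f) {c s : ℝ} (h : c ^ 2 + s ^ 2 = 1) {a b : ℝ≥0}
    (ha : a ≠ 0) (hb : b ≠ 0) :
    Rep f (Gi (fun q => f (rot c s q)) a b) fun θ => g2 (a / 2) (b / 2) (rot c (-s) θ) := by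
  obtain ⟨hm, ⟨B, hB⟩, -⟩ := hf
  have ha' : (0 : ℝ) < a := by positivity
  have hb' : (0 : ℝ) < b := by positivity
  have h' : c ^ 2 + (-s) ^ 2 = 1 := by rw [neg_sq]; exact h
  have hg := (mp_rot h').integrable_comp_of_integrable
    (integrable_g2 (a := a / 2) (b := b / 2) (by positivity) (by positivity))
  refine ⟨fun n => int_bdd hg (by fun_prop) (fh_bdd hm hB (by positivity)), ?_⟩
  have e : ∀ ε : ℝ, 0 < ε → ∫ θ, g2 (a / 2) (b / 2) (rot c (-s) θ) * fh f ε θ =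
      (2 * π) ^ 2 * ∫ q, f (rot c s q) * g2 ε ε q ∂N2 a b := fun ε hε => by
    rw [← parseval ha hb
      (integrable_damp (f := fun q => f (rot c s q)) (by fun_prop) (fun q => hB _) hε),
      ← integral_rot h (by fun_prop)]
    refine integral_congr_ae (ae_of_all _ fun θ => ?_)
    simp only [rot_neg_rot h, fh]
    rw [← integral_rot h (by fun_prop)]
    simp only [dot_rot h, g2_rot h]
  have e' : ∀ n : ℕ, (0 : ℝ) < 1 / ((n : ℝ) + 1) := fun n => by positivity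
  simp only [e _ (e' _)]
  refine Tendsto.const_mul _ (tendsto_integral_of_dominated_convergence (fun _ => B)
    (fun n => Measurable.aestronglyMeasurable (by fun_prop)) (integrable_const _)
    (fun n => ae_of_all _ fun q => ?_) (ae_of_all _ fun q => ?_))
  · rw [Real.norm_eq_abs, abs_mul, abs_of_pos (g2_pos _ _ _)]
    exact (mul_le_of_le_one_right (abs_nonneg _) (g2_le_one (e' n).le q)).trans (hB _)
  · simp only [g2_eq]
    have t : Tendsto (fun n : ℕ => -(1 / ((n : ℝ) + 1)) * nsq q) atTop (𝓝 (-0 * nsq q)) :=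
      tendsto_one_div_add_atTop_nhds_zero_nat.neg.mul_const _
    have t2 := ((Real.continuous_exp.tendsto _).comp t).const_mul (f (rot c s q))
    simpa [Function.comp] using t2

/-- One-dimensional symbols. -/
noncomputable def ee (κ : ℝ≥0) (i : ℕ) (x : ℝ) : ℝ := Real.exp (-((κ : ℝ) ^ i / 2) * x ^ 2)

/-- Differences of consecutive symbols. -/
noncomputable def dd (κ : ℝ≥0) (i : ℕ) (x : ℝ) : ℝ := ee κ i x - ee κ (i + 1) x

lemma ee_pos (κ : ℝ≥0) (i : ℕ) (x : ℝ) : 0 < ee κ i x := Real.exp_pos _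

lemma dd_nonneg {κ : ℝ≥0} (hκ : 2 ≤ κ) (i : ℕ) (x : ℝ) : 0 ≤ dd κ i x := by
  have hκ' : (2 : ℝ) ≤ κ := hκ
  refine sub_nonneg.2 (Real.exp_le_exp.2 (mul_le_mul_of_nonneg_right ?_ (sq_nonneg x)))
  have : (κ : ℝ) ^ i ≤ κ ^ (i + 1) := pow_le_pow_right₀ (by linarith) (Nat.le_succ i)
  linarith

lemma rep_Dk {f : ℝ × ℝ → ℝ} (hf : PD f) {c s : ℝ} (h : c ^ 2 + s ^ 2 = 1) {κ : ℝ≥0}
    (hκ : 2 ≤ κ) (i j : ℕ) : Rep f (Dk κ (fun q => f (rot c s q)) i j) fun θ =>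
      dd κ i (rot c (-s) θ).1 * dd κ j (rot c (-s) θ).2 := by
  have h0 : ∀ n : ℕ, κ ^ n ≠ 0 := fun n => pow_ne_zero _ (lt_of_lt_of_le two_pos hκ).ne'
  have := (((rep_base hf h (h0 i) (h0 j)).sub (rep_base hf h (h0 (i + 1)) (h0 j))).sub
    (rep_base hf h (h0 i) (h0 (j + 1)))).add (rep_base hf h (h0 (i + 1)) (h0 (j + 1)))
  refine this.congr fun θ => ?_
  simp only [dd, ee, g2, NNReal.coe_pow]
  ring

lemma rep_Dk' {f : ℝ × ℝ → ℝ} (hf : PD f) {κ : ℝ≥0} (hκ : 2 ≤ κ) (i j : ℕ) :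
    Rep f (Dk κ f i j) fun θ => dd κ i θ.1 * dd κ j θ.2 := by
  have := rep_Dk hf (c := 1) (s := 0) (by norm_num) hκ i j
  simpa only [neg_zero, rot_one] using this

lemma rep_Gi {f : ℝ × ℝ → ℝ} (hf : PD f) {a b : ℝ≥0} (ha : a ≠ 0) (hb : b ≠ 0) :
    Rep f (Gi f a b) (g2 (a / 2) (b / 2)) := by
  have := rep_base hf (c := 1) (s := 0) (by norm_num) ha hb
  simpa only [neg_zero, rot_one] using this

lemma sum_dd (κ : ℝ≥0) (R : ℕ) (x : ℝ) : ∑ i ∈ Finset.range R, dd κ i x ≤ ee κ 0 x := by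
  simp only [dd]
  rw [Finset.sum_range_sub' fun i => ee κ i x]
  linarith [ee_pos κ R x]

lemma sum_dd_dd {κ : ℝ≥0} (hκ : 2 ≤ κ) (J : Finset (ℕ × ℕ)) (x y : ℝ) :
    ∑ z ∈ J, dd κ z.1 x * dd κ z.2 y ≤ ee κ 0 x * ee κ 0 y := by
  obtain ⟨R, hR⟩ : ∃ R, J ⊆ Finset.range R ×ˢ Finset.range R := by
    refine ⟨J.sup (fun z => z.1 + z.2) + 1, fun z hz => ?_⟩
    have := Finset.le_sup (f := fun z : ℕ × ℕ => z.1 + z.2) hz
    simp only [Finset.mem_product, Finset.mem_range] at this ⊢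
    omega
  refine (Finset.sum_le_sum_of_subset_of_nonneg hR fun z _ _ =>
    mul_nonneg (dd_nonneg hκ _ _) (dd_nonneg hκ _ _)).trans ?_
  rw [Finset.sum_product' _ _ fun i j => dd κ i x * dd κ j y, ← Finset.sum_mul_sum]
  exact mul_le_mul (sum_dd κ R x) (sum_dd κ R y)
    (Finset.sum_nonneg fun _ _ => dd_nonneg hκ _ _) (ee_pos _ _ _).le

lemma dd_lower {κ : ℝ≥0} (hκ : 2 ≤ κ) {i : ℕ} {x γ : ℝ} (hx : γ ≤ (κ : ℝ) ^ i * x ^ 2) :
    ee κ i x * (1 - Real.exp (-γ / 2)) ≤ dd κ i x := by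
  have hκ' : (2 : ℝ) ≤ κ := hκ
  have : ee κ (i + 1) x ≤ ee κ i x * Real.exp (-γ / 2) := by
    rw [ee, ee, ← Real.exp_add, Real.exp_le_exp, pow_succ]
    have h0 : 0 ≤ (κ : ℝ) ^ i * x ^ 2 := by positivity
    nlinarith
  rw [dd]; linarith

lemma dd_frame {κ : ℝ≥0} (hκ : 2 ≤ κ) {i : ℕ} {u : ℝ × ℝ} {γ : ℝ} (hγ : 0 ≤ γ)
    (h1 : 1 ≤ (κ : ℝ) ^ i * nsq u) (h2 : γ * nsq u ^ 2 ≤ u.1 ^ 2 * u.2 ^ 2) :
    Real.exp (-((κ : ℝ) ^ i * nsq u) / 2) * (1 - Real.exp (-γ / 2)) ^ 2 ≤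
      dd κ i u.1 * dd κ i u.2 := by
  have hK : 0 ≤ (κ : ℝ) ^ i := by positivity
  have hr : 0 < nsq u := by
    refine lt_of_le_of_ne (nsq_nonneg u) fun h0 => ?_
    rw [← h0] at h1; linarith
  have a1 : γ * nsq u ≤ u.1 ^ 2 := by
    refine le_of_mul_le_mul_right ?_ hr
    have : u.1 ^ 2 * u.2 ^ 2 ≤ u.1 ^ 2 * nsq u :=
      mul_le_mul_of_nonneg_left (by rw [nsq]; linarith [sq_nonneg u.1]) (sq_nonneg _)
    nlinarith
  have a2 : γ * nsq u ≤ u.2 ^ 2 := by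
    refine le_of_mul_le_mul_right ?_ hr
    have : u.2 ^ 2 * u.1 ^ 2 ≤ u.2 ^ 2 * nsq u :=
      mul_le_mul_of_nonneg_left (by rw [nsq]; linarith [sq_nonneg u.2]) (sq_nonneg _)
    nlinarith
  have b : ∀ x : ℝ, γ * nsq u ≤ x ^ 2 → γ ≤ (κ : ℝ) ^ i * x ^ 2 := fun x hx => by
    nlinarith [mul_le_mul_of_nonneg_left hx hK, mul_le_mul_of_nonneg_left h1 hγ]
  have h3 : 0 ≤ 1 - Real.exp (-γ / 2) := sub_nonneg.2 (Real.exp_le_one_iff.2 (by linarith))
  refine le_trans (le_of_eq ?_) (mul_le_mul (dd_lower hκ (b _ a1)) (dd_lower hκ (b _ a2))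
    (mul_nonneg (ee_pos _ _ _).le h3) (dd_nonneg hκ _ _))
  rw [mul_mul_mul_comm, ee, ee, ← Real.exp_add, sq (1 - _), nsq]
  congr 2; ring

lemma strict {κ : ℝ≥0} (hκ : 2 ≤ κ) {c s : ℝ} (h : c ^ 2 + s ^ 2 = 1) (N : ℕ) {v : ℝ} {m₁ : ℕ}
    (hv : v ≤ (κ : ℝ) ^ (N + m₁)) (θ : ℝ × ℝ) :
    Real.exp (-κ / 2) * (1 - Real.exp (-(c ^ 2 * s ^ 2 / 6) / 2)) ^ 2 *
      (g2 ((κ : ℝ) ^ N / 2) ((κ : ℝ) ^ N / 2) θ - Real.exp (1 / 2) * g2 (v / 2) (v / 2) θ) ≤
      ∑ m ∈ Finset.range (m₁ + 1), (dd κ (N + m) θ.1 * dd κ (N + m) θ.2 +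
        dd κ (N + m) (rot c (-s) θ).1 * dd κ (N + m) (rot c (-s) θ).2) := by
  have hκ' : (2 : ℝ) ≤ κ := hκ
  have hn : ∀ m (u : ℝ × ℝ), 0 ≤ dd κ (N + m) u.1 * dd κ (N + m) u.2 := fun m u =>
    mul_nonneg (dd_nonneg hκ _ _) (dd_nonneg hκ _ _)
  have hr := nsq_nonneg θ
  set γ := c ^ 2 * s ^ 2 / 6 with hγ
  have hγ0 : 0 ≤ γ := by positivity
  set w := (1 - Real.exp (-γ / 2)) ^ 2 with hw
  have hw0 : 0 ≤ w := sq_nonneg _
  rw [g2_eq, g2_eq]
  by_cases h1 : v * nsq θ ≤ 1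
  · refine le_trans (mul_nonpos_of_nonneg_of_nonpos (by positivity) ?_)
      (Finset.sum_nonneg fun m _ => add_nonneg (hn m _) (hn m _))
    rw [← Real.exp_add, sub_nonpos, Real.exp_le_exp]
    have : 0 ≤ (κ : ℝ) ^ N * nsq θ := by positivity
    linarith
  have h2 : 1 ≤ (κ : ℝ) ^ (N + m₁) * nsq θ :=
    (not_le.1 h1).le.trans (mul_le_mul_of_nonneg_right hv hr)
  have hex : ∃ m, 1 ≤ (κ : ℝ) ^ (N + m) * nsq θ := ⟨m₁, h2⟩
  classical
  set m := Nat.find hex with hm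
  have hm1 : 1 ≤ (κ : ℝ) ^ (N + m) * nsq θ := Nat.find_spec hex
  have hm2 : m ≤ m₁ := Nat.find_min' hex h2
  refine le_trans ?_ (Finset.single_le_sum (f := fun m => dd κ (N + m) θ.1 * dd κ (N + m) θ.2 +
    dd κ (N + m) (rot c (-s) θ).1 * dd κ (N + m) (rot c (-s) θ).2)
    (fun m _ => add_nonneg (hn m _) (hn m _)) (Finset.mem_range.2 (Nat.lt_succ_of_le hm2)))
  have h3 : Real.exp (-κ / 2) * Real.exp (-((κ : ℝ) ^ N / 2) * nsq θ) ≤
      Real.exp (-((κ : ℝ) ^ (N + m) * nsq θ) / 2) := by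
    rw [← Real.exp_add, Real.exp_le_exp]
    have h0 : 0 ≤ (κ : ℝ) ^ N * nsq θ := by positivity
    rcases Nat.eq_zero_or_pos m with h4 | h4
    · rw [h4, add_zero]; linarith
    · have h5 := not_le.1 (Nat.find_min hex (m := m - 1) (by omega))
      have : (κ : ℝ) ^ (N + m) = κ * κ ^ (N + (m - 1)) := by
        rw [← pow_succ']; congr 1; omega
      rw [this]
      nlinarith
  have h4 : Real.exp (-((κ : ℝ) ^ (N + m) * nsq θ) / 2) * w ≤ dd κ (N + m) θ.1 * dd κ (N + m) θ.2 +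
      dd κ (N + m) (rot c (-s) θ).1 * dd κ (N + m) (rot c (-s) θ).2 := by
    have t := two_frames h θ
    have hq : nsq (rot c (-s) θ) = nsq θ := nsq_rot (by rw [neg_sq]; exact h) θ
    by_cases h5 : γ * nsq θ ^ 2 ≤ θ.1 ^ 2 * θ.2 ^ 2
    · linarith [dd_frame hκ hγ0 hm1 h5, hn m (rot c (-s) θ)]
    · have h6 := dd_frame hκ (u := rot c (-s) θ) hγ0 (i := N + m) (by rw [hq]; exact hm1)
        (by rw [hq, hγ]; rw [hγ] at h5; linarith)
      rw [hq] at h6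
      linarith [hn m θ]
  refine le_trans ?_ h4
  have h5 : 0 ≤ Real.exp (-κ / 2) * w * (Real.exp (1 / 2) * Real.exp (-(v / 2) * nsq θ)) := by
    positivity
  nlinarith [mul_le_mul_of_nonneg_right h3 hw0]

theorem pd : PDStmt := by
  intro κ hκ
  have hκ' : (2 : ℝ) ≤ κ := hκ
  refine ⟨fun f hf i j => ?_, fun f hf J => ?_, fun c s h hc hs => ?_⟩
  · have h0 : Rep f 0 fun _ => 0 := by simp [Rep]
    exact h0.le hf (rep_Dk' hf hκ i j) fun θ => mul_nonneg (dd_nonneg hκ _ _) (dd_nonneg hκ _ _)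
  · refine (Rep.sum J fun z => rep_Dk' hf hκ z.1 z.2).le hf (rep_Gi hf one_ne_zero one_ne_zero)
      fun θ => (sum_dd_dd hκ J _ _).trans_eq ?_
    simp [ee, g2]
  · refine ⟨Real.exp (-κ / 2) * (1 - Real.exp (-(c ^ 2 * s ^ 2 / 6) / 2)) ^ 2, ?_,
      fun f hf N v hv => ?_⟩
    · have : 0 < c ^ 2 * s ^ 2 := by positivity
      exact mul_pos (Real.exp_pos _)
        (pow_pos (sub_pos.2 (Real.exp_lt_one_iff.2 (by linarith))) 2)
    obtain ⟨m₁, hm⟩ := pow_unbounded_of_one_lt (v : ℝ) (show (1 : ℝ) < κ by linarith)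
    have hm' : (v : ℝ) ≤ (κ : ℝ) ^ (N + m₁) :=
      hm.le.trans (pow_le_pow_right₀ (by linarith) (Nat.le_add_left _ _))
    have h0 : κ ^ N ≠ 0 := pow_ne_zero _ (lt_of_lt_of_le two_pos hκ).ne'
    refine ⟨m₁ + 1, (((rep_Gi hf h0 h0).sub ((rep_Gi hf hv hv).smul _)).smul _).le hf
      (Rep.sum _ fun m => (rep_Dk' hf hκ _ _).add (rep_Dk hf h hκ _ _)) fun θ => ?_⟩
    simpa only [NNReal.coe_pow] using strict hκ h N hm' θ

end Pool.Agent.MP_2b113a_an.H36
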